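import Pool.Agent.H87.QP.Targets

/-!
# Row CYH: all levels on the cyclic group (helper79)
-/

set_option autoImplicit false

namespace Pool.Agent.H79.QP

open Finset Pool.Agent.H18.MR Pool.Agent.H93.DE Pool.Agent.H6.N4D Pool.Agent.H93
  Pool.Agent.H93.ES Pool.Agent.H28.NW Pool.Agent.H87.QP

/-- all levels on the cyclic group -/
theorem pf_CYH (hL : T_LVH) (hC : T_CHS) : T_CYH := by
  intro h
  obtain ⟨c, hc⟩ : ∃ c : ℕ, 2 * h + 2 ≤ 2 ^ c := ⟨2 * h + 2, Nat.lt_two_pow_self.le⟩
  obtain ⟨C, w₁, hC0, hL⟩ := hL h c hc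
  refine ⟨4 * C, 10 ^ 5 + 100 * c + w₁, by positivity, ?_⟩
  intro N K _ x w h0 hw hN
  have hge : ∀ j, j < K → w 0 ≤ w j := by
    intro j
    induction j with
    | zero => intro _; exact le_rfl
    | succ j ih =>
      intro hj
      have h1 := ih (by omega)
      have h2 := hw j hj
      omega
  have hinv : ∀ j, j < K → 2 ^ j ≤ w j := by
    intro j
    induction j with
    | zero => intro _; simp only [pow_zero]; omega
    | succ j ih =>
      intro hj
      have h1 := ih (by omega)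
      have h2 := hw j hj
      rw [pow_succ]
      omega
  have hterm : ∀ j ∈ range K, avZ (fun n => ∑ q ∈ EB.QQ (w j), 1 / (q : ℝ) *
      ‖wm (fh (ltr x n) q h) (w j) (kA q n.val 0)‖ ^ 2) ≤
      C * infs x (w j) c + C * (1 / 2) ^ j := by
    intro j hj
    have hj' := mem_range.1 hj
    have h1 := hL N (w j) x (by have := hge j hj'; omega) (hN j hj')
    refine h1.trans ?_
    rw [mul_add]
    apply add_le_add le_rfl
    apply mul_le_mul_of_nonneg_left _ hC0.le
    have h2 : ((2 : ℝ)) ^ j ≤ (w j : ℝ) := by exact_mod_cast hinv j hj'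
    rw [one_div_pow]
    exact one_div_le_one_div_of_le (by positivity) h2
  have hgeo : ∑ j ∈ range K, (1 / 2 : ℝ) ^ j ≤ 2 := by
    rw [geom_sum_eq (show (1 / 2 : ℝ) ≠ 1 by norm_num) K, div_le_iff_of_neg (by norm_num)]
    have h3 : (0 : ℝ) < (1 / 2) ^ K := by positivity
    linarith
  have hinf := hC N K c x w (by omega) hw hN
  calc ∑ j ∈ range K, avZ (fun n => ∑ q ∈ EB.QQ (w j), 1 / (q : ℝ) *
      ‖wm (fh (ltr x n) q h) (w j) (kA q n.val 0)‖ ^ 2) ≤
      ∑ j ∈ range K, (C * infs x (w j) c + C * (1 / 2) ^ j) := sum_le_sum hterm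
    _ = C * ∑ j ∈ range K, infs x (w j) c + C * ∑ j ∈ range K, (1 / 2 : ℝ) ^ j := by
        rw [sum_add_distrib, mul_sum, mul_sum]
    _ ≤ C * 2 + C * 2 := by
        apply add_le_add
        · exact mul_le_mul_of_nonneg_left hinf hC0.le
        · exact mul_le_mul_of_nonneg_left hgeo hC0.le
    _ = 4 * C := by ring

end Pool.Agent.H79.QP
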